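import Pool.Agent.LE.StmtsQD

/-!
# Squad LQD, row INT: interpolation between `ℓ¹ → ℓ^∞` and `ℓ² → ℓ²`

Proof by the three lines theorem for
`F(z) = ∑ conj(sgn f x) |f x|^{(4/3)(1 - z/2)} T x y sgn(f y) |f y|^{(4/3)(1 - z/2)}`.
-/

set_option autoImplicit false

open scoped BigOperators

noncomputable section

namespace Pool.Agent.LE.QD.H82

/-- `|r|^{(4/3)(1 - z/2)}` -/
def ex (r : ℝ) (z : ℂ) : ℂ := Complex.exp ((4 / 3 : ℂ) * (1 - z / 2) * (Real.log r : ℝ))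

theorem ex_norm (r : ℝ) (z : ℂ) : ‖ex r z‖ = Real.exp (4 / 3 * (1 - z.re / 2) * Real.log r) := by
  unfold ex
  rw [Complex.norm_exp]
  congr 1
  simp

theorem ex_zero {r : ℝ} (hr : 0 < r) {z : ℂ} (hz : z.re = 0) : ‖ex r z‖ = r ^ (4 / 3 : ℝ) := by
  rw [ex_norm, hz, Real.rpow_def_of_pos hr]
  congr 1
  ring

theorem ex_one {r : ℝ} (hr : 0 < r) {z : ℂ} (hz : z.re = 1) : ‖ex r z‖ ^ 2 = r ^ (4 / 3 : ℝ) := by
  rw [ex_norm, hz, Real.rpow_def_of_pos hr, ← Real.exp_nat_mul]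
  congr 1
  push_cast
  ring

theorem ex_half {r : ℝ} (hr : 0 < r) : ex r (1 / 2 : ℂ) = (r : ℂ) := by
  unfold ex
  have h : (4 / 3 : ℂ) * (1 - (1 / 2 : ℂ) / 2) * (Real.log r : ℝ) = ((Real.log r : ℝ) : ℂ) := by
    ring
  rw [h, ← Complex.ofReal_exp, Real.exp_log hr]

theorem ex_bdd (r : ℝ) {z : ℂ} (h0 : 0 ≤ z.re) (h1 : z.re ≤ 1) :
    ‖ex r z‖ ≤ Real.exp (4 / 3 * |Real.log r|) := by
  rw [ex_norm]
  apply Real.exp_le_exp.2
  have h2 : 4 / 3 * (1 - z.re / 2) * Real.log r ≤ |4 / 3 * (1 - z.re / 2) * Real.log r| :=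
    le_abs_self _
  refine h2.trans ?_
  rw [abs_mul]
  have h3 : |4 / 3 * (1 - z.re / 2)| ≤ 4 / 3 := by
    rw [abs_of_nonneg (by linarith)]
    linarith
  exact mul_le_mul_of_nonneg_right h3 (abs_nonneg _)

/-- the analytic family -/
def ph {X : Type} (f : X → ℂ) (z : ℂ) (x : X) : ℂ := f x / (‖f x‖ : ℂ) * ex ‖f x‖ z

/-- the conjugate family (analytic in `z`) -/
def pc {X : Type} (f : X → ℂ) (z : ℂ) (x : X) : ℂ :=
  (starRingEnd ℂ) (f x / (‖f x‖ : ℂ)) * ex ‖f x‖ z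

theorem sg_norm (w : ℂ) : w ≠ 0 → ‖w / (‖w‖ : ℂ)‖ = 1 := by
  intro hw
  rw [norm_div, Complex.norm_real, norm_norm, div_self (norm_ne_zero_iff.2 hw)]

theorem ph_norm {X : Type} (f : X → ℂ) (z : ℂ) (x : X) :
    ‖ph f z x‖ = if f x = 0 then 0 else ‖ex ‖f x‖ z‖ := by
  unfold ph
  split_ifs with h
  · rw [h]; simp
  · rw [norm_mul, sg_norm _ h, one_mul]

theorem pc_norm {X : Type} (f : X → ℂ) (z : ℂ) (x : X) : ‖pc f z x‖ = ‖ph f z x‖ := by
  unfold pc ph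
  rw [norm_mul, norm_mul, RCLike.norm_conj]

theorem ph_zero {X : Type} (f : X → ℂ) {z : ℂ} (hz : z.re = 0) (x : X) :
    ‖ph f z x‖ = ‖f x‖ ^ (4 / 3 : ℝ) := by
  rw [ph_norm]
  split_ifs with h
  · rw [h, norm_zero, Real.zero_rpow (by norm_num)]
  · exact ex_zero (norm_pos_iff.2 h) hz

theorem ph_one {X : Type} (f : X → ℂ) {z : ℂ} (hz : z.re = 1) (x : X) :
    ‖ph f z x‖ ^ 2 = ‖f x‖ ^ (4 / 3 : ℝ) := by
  rw [ph_norm]
  split_ifs with h
  · rw [h, norm_zero, Real.zero_rpow (by norm_num)]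
    norm_num
  · exact ex_one (norm_pos_iff.2 h) hz

theorem ph_half {X : Type} (f : X → ℂ) (x : X) : ph f (1 / 2 : ℂ) x = f x := by
  unfold ph
  by_cases h : f x = 0
  · rw [h]; simp
  · rw [ex_half (norm_pos_iff.2 h)]
    have h1 : (‖f x‖ : ℂ) ≠ 0 := by
      exact_mod_cast norm_ne_zero_iff.2 h
    field_simp

theorem pc_half {X : Type} (f : X → ℂ) (x : X) :
    pc f (1 / 2 : ℂ) x = (starRingEnd ℂ) (f x) := by
  unfold pc
  by_cases h : f x = 0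
  · rw [h]; simp
  · rw [ex_half (norm_pos_iff.2 h)]
    have h1 : (‖f x‖ : ℂ) ≠ 0 := by
      exact_mod_cast norm_ne_zero_iff.2 h
    rw [map_div₀, Complex.conj_ofReal]
    field_simp

theorem ph_bdd {X : Type} (f : X → ℂ) {z : ℂ} (h0 : 0 ≤ z.re) (h1 : z.re ≤ 1) (x : X) :
    ‖ph f z x‖ ≤ Real.exp (4 / 3 * |Real.log ‖f x‖|) := by
  rw [ph_norm]
  split_ifs with h
  · exact (Real.exp_pos _).le
  · exact ex_bdd _ h0 h1

theorem ex_diff (r : ℝ) : Differentiable ℂ (ex r) := by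
  unfold ex
  fun_prop

/-- INT -/
theorem int : IntStmt := by
  refine ⟨1, le_refl _, ?_⟩
  intro X _ T f A B hA hB hT hA2
  obtain ⟨S, hS⟩ : ∃ S : ℝ, S = ∑ x, ‖f x‖ ^ (4 / 3 : ℝ) := ⟨_, rfl⟩
  have hS0 : 0 ≤ S := by
    rw [hS]
    exact Finset.sum_nonneg fun x _ => Real.rpow_nonneg (norm_nonneg _) _
  obtain ⟨F, hF⟩ : ∃ F : ℂ → ℂ, F = fun z => ∑ x, ∑ y, pc f z x * (T x y * ph f z y) := ⟨_, rfl⟩
  have hdiff : Differentiable ℂ F := by
    rw [hF]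
    refine Differentiable.fun_sum fun x _ => Differentiable.fun_sum fun y _ => ?_
    have h1 : Differentiable ℂ fun z => pc f z x := (ex_diff _).const_mul _
    have h2 : Differentiable ℂ fun z => ph f z y := (ex_diff _).const_mul _
    exact h1.mul (h2.const_mul _)
  have hle : ∀ z, ‖F z‖ ≤ ∑ x, ∑ y, ‖ph f z x‖ * (B * ‖ph f z y‖) := by
    intro z
    rw [hF]
    refine (norm_sum_le _ _).trans (Finset.sum_le_sum fun x _ => ?_)
    refine (norm_sum_le _ _).trans (Finset.sum_le_sum fun y _ => ?_)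
    rw [norm_mul, norm_mul, pc_norm]
    exact mul_le_mul_of_nonneg_left (mul_le_mul_of_nonneg_right (hT x y) (norm_nonneg _))
      (norm_nonneg _)
  have hbdd : BddAbove ((norm ∘ F) '' Complex.HadamardThreeLines.verticalClosedStrip 0 1) := by
    refine ⟨∑ x, ∑ y, Real.exp (4 / 3 * |Real.log ‖f x‖|) *
      (B * Real.exp (4 / 3 * |Real.log ‖f y‖|)), ?_⟩
    rintro _ ⟨z, hz, rfl⟩
    refine (hle z).trans (Finset.sum_le_sum fun x _ => Finset.sum_le_sum fun y _ => ?_)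
    have hz0 : 0 ≤ z.re := hz.1
    have hz1 : z.re ≤ 1 := hz.2
    refine mul_le_mul (ph_bdd f hz0 hz1 x) (mul_le_mul_of_nonneg_left (ph_bdd f hz0 hz1 y) hB)
      (mul_nonneg hB (norm_nonneg _)) (Real.exp_pos _).le
  have h0 : ∀ z ∈ Complex.re ⁻¹' {(0 : ℝ)}, ‖F z‖ ≤ B * S ^ 2 := by
    intro z hz
    have hz' : z.re = 0 := hz
    refine (hle z).trans (le_of_eq ?_)
    simp only [ph_zero f hz']
    rw [hS, sq, Finset.sum_mul_sum, Finset.mul_sum]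
    refine Finset.sum_congr rfl fun x _ => ?_
    rw [Finset.mul_sum]
    refine Finset.sum_congr rfl fun y _ => ?_
    ring
  have h1 : ∀ z ∈ Complex.re ⁻¹' {(1 : ℝ)}, ‖F z‖ ≤ A * S := by
    intro z hz
    have hz' : z.re = 1 := hz
    have h2 := hA2 (fun x => (starRingEnd ℂ) (pc f z x)) (ph f z)
    have h3 : n2 (fun x => (starRingEnd ℂ) (pc f z x)) = S := by
      unfold n2
      rw [hS]
      refine Finset.sum_congr rfl fun x _ => ?_
      rw [RCLike.norm_conj, pc_norm, ph_one f hz']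
    have h4 : n2 (ph f z) = S := by
      unfold n2
      rw [hS]
      exact Finset.sum_congr rfl fun x _ => ph_one f hz' x
    rw [h3, h4, Real.mul_self_sqrt hS0] at h2
    simp only [Complex.conj_conj] at h2
    rw [hF]
    exact h2
  have hmem : (1 / 2 : ℂ) ∈ Complex.HadamardThreeLines.verticalClosedStrip 0 1 := by
    change (1 / 2 : ℂ).re ∈ Set.Icc (0 : ℝ) 1
    norm_num
  have hmain := Complex.HadamardThreeLines.norm_le_interp_of_mem_verticalClosedStrip₀₁' F hmem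
    hdiff.diffContOnCl hbdd h0 h1
  have hFh : F (1 / 2 : ℂ) = ∑ x, ∑ y, (starRingEnd ℂ) (f x) * (T x y * f y) := by
    rw [hF]
    simp only [ph_half, pc_half]
  rw [hFh] at hmain
  have hre : (1 / 2 : ℂ).re = 1 / 2 := by norm_num
  rw [hre] at hmain
  refine hmain.trans (le_of_eq ?_)
  have e1 : (1 : ℝ) - 1 / 2 = 1 / 2 := by norm_num
  rw [e1, ← hS, one_mul, Real.sqrt_eq_rpow, Real.mul_rpow hB (sq_nonneg _),
    Real.mul_rpow hA hS0, Real.mul_rpow hA hB, ← Real.rpow_natCast, ← Real.rpow_mul hS0]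
  have e2 : ((2 : ℕ) : ℝ) * (1 / 2) = 1 := by norm_num
  rw [e2, Real.rpow_one]
  have e3 : S ^ (3 / 2 : ℝ) = S * S ^ (1 / 2 : ℝ) := by
    rcases hS0.eq_or_lt with h | h
    · rw [← h, Real.zero_rpow (by norm_num), zero_mul]
    · have e4 : (3 / 2 : ℝ) = 1 + 1 / 2 := by norm_num
      rw [e4, Real.rpow_add h, Real.rpow_one]
  rw [e3]
  ring

end Pool.Agent.LE.QD.H82
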